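import Pool.Agent.H367.OT.GFam

/-!
# The Beilinson–Soulé vanishing conjecture and one sequence of cubics over the integers

A relation `r` of size `m` is one of the equations `x_i x_j = x_l`, `x_i + x_j = x_l`, `x_i = 1` with
`i, j, l < m`; the relations are numbered, the number of `r` is `ν(r)` (`relNum`), and `R_m` is the
number of all relations (`numRel m`). Let `G_m` be the following polynomial with integral coefficients
(`univG ℤ m`). There are variables `x_i` and `z_ij` for `i, j < m`, a variable `c_r` for every relation
`r`, and variables `y_{r,l}` for all relations `r` and `l < (m + 1)^2 2 ^ ν(r)`. The equations (`eqnG`)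
are

  `z_ij - x_i x_j`,  `c_r ^ 2 - c_r`,  `c_r ρ_r`,  `(1 - c_r) y_{r,l}`,

where `ρ_r` is the linear polynomial `z_ij - x_l`, `x_i + x_j - x_l` or `x_i - 1` of the relation.
`G_m` is the sum of the equations multiplied by further variables `t_e`, one for each equation. It has
degree three. Let `C_m` be the affine cubic hypersurface `G_m = 1` (`cubG R m` over the ring `R`); it is
smooth over the integers.

Let `Ch j n Y = CH^j(Y, n)_ℚ` be the higher Chow groups of Bloch with rational coefficients (zero for
`j < 0` or `n < 0`), so that `H^k(Y, ℚ(j)) = Ch j (2j - k) Y`. Question Q1 for smooth projective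
varieties over `ℂ` is equivalent to the same question over `ℚ` (`descent`): `CH^j(Y, n)_ℚ` injects in
`CH^j(Y_ℂ, n)_ℚ`; conversely, by localisation and resolution of singularities (induction on the
dimension) the vanishing for smooth projective varieties over `ℚ` implies the vanishing for all smooth
varieties over `ℚ`, and the higher Chow groups of a variety over `ℂ` are direct limits of those of
smooth varieties over `ℚ`.

For every `n` the groups `CH^j(Y, n)_ℚ`, for smooth projective `Y` over `ℚ`, are additive functors of
the Chow motive of `Y`, and they are zero for `j < 0` and for `j > dim Y + n`. For a separated scheme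
`X` of finite type over `ℚ` let `W(X)` be the weight complex (Gillet, Soulé; a complex of Chow motives
over `ℚ` with rational coefficients, for the cohomology with compact supports; `W(X) = h(X)` for
smooth projective `X`), and put `G n (j, s) X = H^s(CH^j(W(X), n)_ℚ)`. `VanishAt (G n) j X` says that
these groups are zero for all `s`; for smooth projective `Y` it says that `CH^j(Y, n)_ℚ = 0`.

**Theorem.** Let `E_m` be the number of the equations, and for `N ∈ ℕ` let
`idx m q N = q + (m + 1)^2 N + E_m - 1`.

(1) Question Q1 has a positive answer if and only if, for infinitely many `m`,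
`G n (idx m j N, s) C_m = 0` for all `s`, all `j`, `n` such that `2j < n ≤ m / 2`, `-n ≤ j`, and all
`N < 2 ^ R_m`.

(2) For all `j`, `n` with `j ≥ -n`: `CH^j(Y, n)_ℚ = 0` for all smooth projective `Y` over `ℚ` if and
only if `G n (idx m j N, s) C_m = 0` for all `s` and all `N < 2 ^ R_m`, for infinitely many `m`.

(3) For every `n` the hypersurfaces decide the statements (`Decides n`): for every affine scheme `Spec
B` of finite type over `ℚ` and all large `m` there is an `N` such that for `-n ≤ q ≤ m` the statement
`VanishAt (G n) q` for `Spec B` is equivalent to the one with the index `idx m q N` for `C_m`; and for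
every separated scheme `X` of finite type and all large `m` the statements with the indices `idx m q
N` for `C_m` imply the statement with the index `q` for `X`.

(4) `G_m` has integral coefficients and degree at most three, and `C_m` is smooth over all rings.

The hypotheses are standard: localisation sequences, affine bundles and products with `𝔾_m`
(`IsWeightPair`); the weight complex of a scheme of dimension at most `d` consists of direct factors
of motives of smooth projective varieties of dimension at most `d` (`GenAt`, `PBound`). Nothing is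
assumed on the point (over `ℚ` the vanishing for the point is known by Borel's theorem, but not used).

Idea of the proof. The projection of `C_m` to the affine space with the coordinates `x, z, c, y` is an
affine bundle over the complement of the zero set `W_m` of the equations. The scheme `W_m` is the
disjoint union, over all sets `s` of relations (`c_r = 1` for `r ∈ s` and `c_r = 0` for the others), of
the products `X_s × 𝔸 ^ ((m + 1)^2 N(s))`, where `X_s` is the affine scheme defined by the relations in
`s` and `N(s) = ∑_{r ∈ s} 2 ^ ν(r)`. The numbers `N(s) < 2 ^ R_m` are different, and the dimension of `X_s`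
is at most `m`. The invariants with the indices `q < -c` and `q > dim + c` are zero, and `m + 2 c` is less
than `(m + 1)^2`. So the invariant of `W_m` with the index `q + (m + 1)^2 N(s)`, `-c ≤ q ≤ m`, is the
invariant of `X_s` with the index `q`; the other components do not contribute. Every affine scheme of
finite type over a prime field is an `X_s`, for all large `m`.

The universal system of relations is the one of helper854 (`Pool.Agent.H854.SQ`).
-/

set_option autoImplicit false

open CategoryTheory CategoryTheory.Limits AlgebraicGeometry Pool.Agent.Y116.UV Pool.Agent.Z125.UN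
  Pool.Agent.Q193.LT Pool.Agent.Q49.WU Pool.Agent.H854.SQ Pool.Agent.H367.OT
open Pool.Agent.H367.OS (isPrimeField_rat)

universe w w'



namespace Pool.Agent.Results.MP_d72c81_ag.OneSequenceOverTheIntegers

/-- The groups `G (j, s) X` are zero for all `s`. -/
def VanishAt (G : ℤ × ℤ → Sch ℚ → ModuleCat.{w} ℚ) (j : ℤ) (X : Sch ℚ) : Prop :=
  ∀ s : ℤ, Subsingleton (G (j, s) X)

/-- The groups `G (j, s) X` with the maps to zero. -/
noncomputable def toZero (G : ℤ × ℤ → Sch ℚ → ModuleCat.{w} ℚ) : PairData.{w} ℚ (ℤ × ℤ) ℚ where
  A := G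
  B := fun _ _ => ModuleCat.of ℚ PUnit
  ρ := fun _ _ => 0

lemma bij_toZero (G : ℤ × ℤ → Sch ℚ → ModuleCat.{w} ℚ) (n : ℤ) (X : Sch ℚ) :
    BijAt (toZero G) Prod.fst n X ↔ VanishAt G n X := by
  constructor
  · intro h i
    exact ⟨fun a b => (h (n, i) rfl).1 rfl⟩
  · rintro h ⟨m, i⟩ rfl
    have := h i
    exact ⟨fun a b _ => Subsingleton.elim (α := G (m, i) X) a b, fun b => ⟨0, rfl⟩⟩

/-- Question Q1: for `k < 0` the group `H^k(Y, ℚ(j)) = CH^j(Y, 2j - k)_ℚ` is zero for all smooth projective
varieties `Y` over `ℂ`. -/
def Q1 (Ch : ℤ → ℤ → Sch ℂ → ModuleCat.{w'} ℚ) : Prop :=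
  ∀ j k : ℤ, k < 0 → ∀ Y : Sch ℂ, SmoothProj Y → Subsingleton (Ch j (2 * j - k) Y)

/-- What is used: the descent from `ℂ` to `ℚ`, `G n (j, 0) Y = CH^j(Y, n)_ℚ` and `G n (j, s) Y = 0` for
`s ≠ 0` and smooth projective `Y` over `ℚ`, and the known standard properties of weight complexes. -/
structure Describes (Ch : ℤ → ℤ → Sch ℂ → ModuleCat.{w'} ℚ) (Ch' : ℤ → ℕ → Sch ℚ → ModuleCat.{w'} ℚ)
    (G : ℕ → ℤ × ℤ → Sch ℚ → ModuleCat.{w} ℚ) : Prop where
  descent : Q1 Ch ↔ ∀ (j : ℤ) (n : ℕ), 2 * j < n → ∀ Y : Sch ℚ, SmoothProj Y →
    Subsingleton (Ch' j n Y)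
  groups : ∀ (j : ℤ) (n : ℕ) (Y : Sch ℚ), SmoothProj Y →
    (Subsingleton (Ch' j n Y) ↔ VanishAt (G n) j Y)
  weight : ∀ n, IsWeightPair (toZero (G n))
  generated : ∀ n, GenAt (toZero (G n)) Prod.fst
  bound : ∀ n, PBound (toZero (G n)) Prod.fst n

/-- **The Beilinson–Soulé vanishing conjecture and one sequence of cubic hypersurfaces over the integers.**
See the explanations above. -/
theorem result {Ch : ℤ → ℤ → Sch ℂ → ModuleCat.{w'} ℚ} {Ch' : ℤ → ℕ → Sch ℚ → ModuleCat.{w'} ℚ}
    {G : ℕ → ℤ × ℤ → Sch ℚ → ModuleCat.{w} ℚ} (h : Describes Ch Ch' G) :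
    (Q1 Ch ↔ ∃ᶠ m in Filter.atTop, ∀ (j : ℤ) (n : ℕ), 2 * j < n → 2 * n ≤ m → -(n : ℤ) ≤ j →
      ∀ N : ℕ, N < 2 ^ numRel m → VanishAt (G n) (idx m j N) (cubG ℚ m)) ∧
    (∀ (j : ℤ) (n : ℕ), -(n : ℤ) ≤ j → ((∀ Y : Sch ℚ, SmoothProj Y → Subsingleton (Ch' j n Y)) ↔
      ∃ᶠ m in Filter.atTop, ∀ N : ℕ, N < 2 ^ numRel m →
        VanishAt (G n) (idx m j N) (cubG ℚ m))) ∧
    (∀ n : ℕ, Decides n (VanishAt (G n))) ∧
    ∀ m : ℕ, (univG ℤ m).totalDegree ≤ 3 ∧
      ∀ (R : Type) [CommRing R], MvPolynomial.map (Int.castRingHom R) (univG ℤ m) = univG R m ∧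
        Smooth (cubG R m).hom := by
  have hv : ∀ n : ℕ, BijAt (toZero (G n)) Prod.fst = VanishAt (G n) := fun n => by
    funext q X
    exact propext (bij_toZero (G n) q X)
  have hd : ∀ n : ℕ, Decides n (VanishAt (G n)) := fun n => by
    rw [← hv]
    exact decides_pair isPrimeField_rat (h.generated n) (h.weight n) graded_weight (h.bound n)
  have hb : ∀ n : ℕ, Bounded n (VanishAt (G n)) := fun n => by
    rw [← hv]
    exact bounded_pair (h.weight n) graded_weight (h.bound n)
  refine ⟨?_, fun j n hj => ?_, hd, cubG_facts⟩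
  · have h1 := family_iff isPrimeField_rat (ι := {x : ℤ × ℕ // 2 * x.1 < x.2})
      (c := fun x => x.1.2) (P := fun x => VanishAt (G x.1.2)) (fun x => hb x.1.2)
      (fun x q g X hX => (bij_toZero _ _ _).mp (h.generated x.1.2 q
        (fun Y hY => (bij_toZero _ _ _).mpr (g Y hY)) X hX)) (fun x => x.1.1)
    rw [h.descent]
    constructor
    · intro g
      refine (h1.mp fun x Y hY => (h.groups _ _ Y hY).mp (g x.1.1 x.1.2 x.2 Y hY)).mono ?_
      intro m hm j n hj h2 h3 N hN
      exact hm ⟨(j, n), hj⟩ h2 h3 (by change j ≤ m; omega) N hN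
    · intro g j n hj Y hY
      refine (h.groups _ _ Y hY).mpr (h1.mpr (g.mono ?_) ⟨(j, n), hj⟩ Y hY)
      intro m hm x h2 h3 _ N hN
      exact hm x.1.1 x.1.2 x.2 h2 h3 N hN
  · exact (forall₂_congr fun Y hY => h.groups j n Y hY).trans (((hd n).index j hj).out 1 0)

end Pool.Agent.Results.MP_d72c81_ag.OneSequenceOverTheIntegers
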